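import Pool.Agent.H14.RG.Targets

/-!
# MP_2697e3_an, REG part A: the antisymmetric form (row A_OMG)
-/

set_option autoImplicit false

namespace Pool.Agent.H62.RG

open MeasureTheory Metric Set Filter Topology Pool.Agent.H14.RG Pool.Agent.H87.SN
open scoped ContDiff RealInnerProductSpace

noncomputable section

/-- the coordinates of the form -/
def ell {n m : ℕ} (B : E m →L[ℝ] E m →L[ℝ] E m) (a b : E m) (i j : Fin m) (L : E n →L[ℝ] E m)
    (v : E n) : ℝ :=
  (B a (L v)) i - (B b (L v)) j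

/-- the vector of the form -/
def omv {n m : ℕ} (B : E m →L[ℝ] E m →L[ℝ] E m) (a b : E m) (i j : Fin m) (L : E n →L[ℝ] E m) :
    E n :=
  WithLp.toLp 2 fun α => ell B a b i j L (bv α)

theorem inner_sum {n : ℕ} (v w : E n) : ⟪v, w⟫ = ∑ α, v α * w α := by
  rw [PiLp.inner_apply]
  refine Finset.sum_congr rfl fun α _ => ?_
  simp [mul_comm]

theorem sum_bv {n : ℕ} (v : E n) : v = ∑ α, v α • (bv α : E n) := by
  ext β
  simp [bv, EuclideanSpace.single_apply, Pi.single_apply]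

theorem ell_eq {n m : ℕ} (B : E m →L[ℝ] E m →L[ℝ] E m) (a b : E m) (i j : Fin m)
    (L : E n →L[ℝ] E m) (v : E n) : ⟪omv B a b i j L, v⟫ = ell B a b i j L v := by
  rw [inner_sum]
  conv_rhs => rw [sum_bv v]
  unfold ell
  simp only [map_sum, map_smul, omv, ell]
  simp only [PiLp.smul_apply, WithLp.ofLp_sum, Finset.sum_apply, smul_eq_mul,
    ← Finset.sum_sub_distrib, WithLp.ofLp_smul, Pi.smul_apply]
  refine Finset.sum_congr rfl fun α _ => ?_
  ring

theorem abs_coord {m : ℕ} (v : E m) (i : Fin m) : |v i| ≤ ‖v‖ := by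
  have := PiLp.norm_apply_le v i
  simpa [Real.norm_eq_abs] using this

theorem norm_omv {n m : ℕ} (B : E m →L[ℝ] E m →L[ℝ] E m) (a b : E m) (i j : Fin m)
    (L : E n →L[ℝ] E m) {CA CT : ℝ} (hCA : 0 ≤ CA) (hB : ‖B‖ ≤ CA) (ha : ‖a‖ ≤ CT)
    (hb : ‖b‖ ≤ CT) : ‖omv B a b i j L‖ ≤ 2 * (CA * CT) * ‖L‖ := by
  set w := omv B a b i j L with hw
  have h1 : ‖w‖ * ‖w‖ ≤ (2 * (CA * CT) * ‖L‖) * ‖w‖ := by
    have h2 : ⟪w, w⟫ = ell B a b i j L w := ell_eq B a b i j L w
    rw [real_inner_self_eq_norm_mul_norm] at h2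
    rw [h2]
    unfold ell
    have h3 : ∀ c : E m, ‖c‖ ≤ CT → ∀ l : Fin m, |(B c (L w)) l| ≤ CA * CT * ‖L‖ * ‖w‖ := by
      intro c hc l
      refine (abs_coord _ l).trans ?_
      have hL : ‖L w‖ ≤ ‖L‖ * ‖w‖ := L.le_opNorm w
      calc ‖B c (L w)‖ ≤ ‖B‖ * ‖c‖ * ‖L w‖ := B.le_opNorm₂ c (L w)
        _ ≤ CA * CT * (‖L‖ * ‖w‖) := by
            have hCT : 0 ≤ CT := (norm_nonneg _).trans hc
            gcongr
        _ = CA * CT * ‖L‖ * ‖w‖ := by ring
    have h4 := abs_le.1 (h3 a ha i)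
    have h5 := abs_le.1 (h3 b hb j)
    nlinarith [h4.1, h4.2, h5.1, h5.2]
  rcases (norm_nonneg w).eq_or_lt with h0 | h0
  · rw [← h0]
    have hCT : 0 ≤ CT := (norm_nonneg _).trans ha
    positivity
  · exact le_of_mul_le_mul_right h1 h0

theorem omv_antisymm {n m : ℕ} (B : E m →L[ℝ] E m →L[ℝ] E m) (a b : E m) (i j : Fin m)
    (L : E n →L[ℝ] E m) : omv B b a j i L = -omv B a b i j L := by
  ext α
  simp [omv, ell]

theorem pf_OMG (hTPR : T_TPR) (hTNG : T_TNG) : T_OMG := by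
  classical
  intro m k N A hN hA
  obtain ⟨T, hT⟩ := hTPR m k N hN
  obtain ⟨CA, hCA⟩ : ∃ C, ∀ q ∈ N, ‖A q‖ ≤ C := by
    have h0 : ContinuousOn (fun q => ‖A q‖) N :=
      (continuous_norm (E := E m →L[ℝ] E m →L[ℝ] E m)).comp_continuousOn hA.continuousOn
    have h1 := (hN.compact.image_of_continuousOn h0).isBounded.bddAbove
    obtain ⟨C, hC⟩ := h1
    exact ⟨C, fun q hq => hC ⟨q, hq, rfl⟩⟩
  obtain ⟨CT, hCT⟩ : ∃ C, ∀ q ∈ N, ‖T q‖ ≤ C := by
    have h0 : ContinuousOn (fun q => ‖T q‖) N :=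
      (continuous_norm (E := E m →L[ℝ] E m)).comp_continuousOn hT.cont
    have h1 := (hN.compact.image_of_continuousOn h0).isBounded.bddAbove
    obtain ⟨C, hC⟩ := h1
    exact ⟨C, fun q hq => hC ⟨q, hq, rfl⟩⟩
  have hCA' : ∀ q ∈ N, ‖A q‖ ≤ |CA| := fun q hq => (hCA q hq).trans (le_abs_self _)
  have hCT' : ∀ q ∈ N, ∀ i : Fin m, ‖T q (bv i)‖ ≤ |CT| := by
    intro q hq i
    refine ((T q).le_opNorm _).trans ?_
    have : ‖(bv i : E m)‖ = 1 := by simp [bv]
    rw [this, mul_one]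
    exact (hCT q hq).trans (le_abs_self _)
  refine ⟨2 * (|CA| * |CT|) + |CA|, by positivity, fun q hq => ?_, ?_⟩
  · have := hCA' q hq
    have h2 : 0 ≤ 2 * (|CA| * |CT|) := by positivity
    linarith
  intro n u G hW hu
  have hNm : MeasurableSet N := hN.compact.isClosed.measurableSet
  -- the function of the pair
  let Φ : Fin m → Fin m → E m × (E n →L[ℝ] E m) → E n := fun i j =>
    (N ×ˢ (univ : Set (E n →L[ℝ] E m))).piecewise
      (fun p => omv (A p.1) (T p.1 (bv j)) (T p.1 (bv i)) i j p.2) (fun _ => 0)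
  have hΦ : ∀ i j, Measurable (Φ i j) := by
    intro i j
    refine ContinuousOn.measurable_piecewise ?_ continuousOn_const
      (hNm.prod MeasurableSet.univ)
    have hAc : ContinuousOn (fun p : E m × (E n →L[ℝ] E m) => A p.1)
        (N ×ˢ (univ : Set (E n →L[ℝ] E m))) :=
      hA.continuousOn.comp continuousOn_fst fun p hp => hp.1
    have hTc : ∀ l : Fin m, ContinuousOn (fun p : E m × (E n →L[ℝ] E m) => T p.1 (bv l))
        (N ×ˢ (univ : Set (E n →L[ℝ] E m))) := fun l =>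
      (hT.cont.comp continuousOn_fst fun p hp => hp.1).clm_apply continuousOn_const
    have hLc : ∀ α : Fin n, ContinuousOn (fun p : E m × (E n →L[ℝ] E m) => p.2 (bv α))
        (N ×ˢ (univ : Set (E n →L[ℝ] E m))) := fun α =>
      continuousOn_snd.clm_apply continuousOn_const
    refine (PiLp.continuous_toLp 2 _).comp_continuousOn ?_
    refine continuousOn_pi.2 fun α => ?_
    unfold ell
    have e1 : ∀ l l' : Fin m, ContinuousOn
        (fun p : E m × (E n →L[ℝ] E m) => (A p.1 (T p.1 (bv l)) (p.2 (bv α))) l')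
        (N ×ˢ (univ : Set (E n →L[ℝ] E m))) := fun l l' =>
      (EuclideanSpace.proj (𝕜 := ℝ) l').continuous.comp_continuousOn
        ((hAc.clm_apply (hTc l)).clm_apply (hLc α))
    exact (e1 j i).sub (e1 i j)
  refine ⟨fun i j x => Φ i j (u x, G x), fun i j => ?_, fun i j x => ?_, fun i j x => ?_, ?_⟩
  · have h1 : AEMeasurable u (volume.restrict (ball (0 : E n) 2)) := hW.memLp.1.aemeasurable
    have h2 : AEMeasurable G (volume.restrict (ball (0 : E n) 2)) :=
      hW.memLp_deriv.1.aemeasurable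
    exact ((hΦ i j).comp_aemeasurable (h1.prodMk h2)).aestronglyMeasurable
  · by_cases hx : u x ∈ N
    · have hx' : (u x, G x) ∈ N ×ˢ (univ : Set (E n →L[ℝ] E m)) := ⟨hx, mem_univ _⟩
      simp only [Φ, Set.piecewise_eq_of_mem _ _ _ hx']
      exact omv_antisymm _ _ _ _ _ _
    · have hx' : (u x, G x) ∉ N ×ˢ (univ : Set (E n →L[ℝ] E m)) := fun h => hx h.1
      simp only [Φ, Set.piecewise_eq_of_notMem _ _ _ hx', neg_zero]
  · by_cases hx : u x ∈ N
    · have hx' : (u x, G x) ∈ N ×ˢ (univ : Set (E n →L[ℝ] E m)) := ⟨hx, mem_univ _⟩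
      simp only [Φ, Set.piecewise_eq_of_mem _ _ _ hx']
      refine (norm_omv (A (u x)) _ _ i j (G x) (abs_nonneg CA) (hCA' _ hx) (hCT' _ hx j)
        (hCT' _ hx i)).trans ?_
      have h3 : 0 ≤ |CA| * ‖G x‖ := by positivity
      nlinarith [h3]
    · have hx' : (u x, G x) ∉ N ×ˢ (univ : Set (E n →L[ℝ] E m)) := fun h => hx h.1
      simp only [Φ, Set.piecewise_eq_of_notMem _ _ _ hx', norm_zero]
      positivity
  · filter_upwards [hu, hTNG n m k N u G hN hW hu] with x hx htan i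
    have hx' : (u x, G x) ∈ N ×ˢ (univ : Set (E n →L[ℝ] E m)) := ⟨hx, mem_univ _⟩
    simp only [Φ, Set.piecewise_eq_of_mem _ _ _ hx']
    simp only [inner_sum, omv, row]
    have e1 : ∀ α : Fin n, ∑ j, (A (u x) (T (u x) (bv j)) (G x (bv α))) i * (G x (bv α)) j =
        (A (u x) (G x (bv α)) (G x (bv α))) i := by
      intro α
      have h1 : T (u x) (G x (bv α)) = G x (bv α) := hT.fix _ hx _ (htan _)
      have h2 : A (u x) (G x (bv α)) (G x (bv α)) =
          ∑ j, (G x (bv α)) j • A (u x) (T (u x) (bv j)) (G x (bv α)) := by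
        have h3 : G x (bv α) = ∑ j, (G x (bv α)) j • T (u x) (bv j) := by
          conv_lhs => rw [← h1]
          conv_lhs => rw [sum_bv (G x (bv α))]
          simp [map_sum]
        have h4 : A (u x) (G x (bv α)) = ∑ j, (G x (bv α)) j • A (u x) (T (u x) (bv j)) := by
          conv_lhs => rw [h3]
          simp [map_sum]
        rw [h4]
        simp
      rw [h2]
      simp [mul_comm]
    have e2 : ∀ α : Fin n, ∑ j, (A (u x) (T (u x) (bv i)) (G x (bv α))) j * (G x (bv α)) j = 0 := by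
      intro α
      rw [← inner_sum]
      exact hA.normal _ hx _ _ _ (hT.mem _ hx _) (htan _) (htan _)
    rw [Finset.sum_comm]
    simp only [ell, sub_mul, Finset.sum_sub_distrib, e1, e2, sub_zero]
    simp
end

end Pool.Agent.H62.RG
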